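import Pool.Agent.H47.PL.Targets

/-!
# NS2: the sum over the number of flipped variables
-/

set_option autoImplicit false

namespace Pool.Agent.H35.PL

open Finset Pool.Agent.H97.RK Pool.Agent.H47.PL

/-- the root of two -/
theorem two_root {ξ : ℝ} (h0 : 0 < ξ) {K' : ℕ} (hK : 1 ≤ ξ * K') (k : ℕ) :
    (2 : ℝ) ^ ((1 / (K' : ℝ)) * k) ≤ (1 + ξ) ^ k := by
  have hK0 : (0 : ℝ) < K' := by
    by_contra hn
    have : ξ * (K' : ℝ) ≤ 0 := mul_nonpos_of_nonneg_of_nonpos h0.le (not_lt.1 hn)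
    linarith
  have h1 : (2 : ℝ) ≤ (1 + ξ) ^ K' := by
    have := one_add_mul_le_pow (a := ξ) (by linarith) K'
    nlinarith
  rw [Real.rpow_mul (by norm_num), Real.rpow_natCast]
  apply pow_le_pow_left₀ (Real.rpow_nonneg (by norm_num) _)
  have h2 := Real.rpow_le_rpow (by norm_num) h1 (by positivity : (0:ℝ) ≤ 1 / (K' : ℝ))
  refine h2.trans (le_of_eq ?_)
  rw [← Real.rpow_natCast (1 + ξ) K', ← Real.rpow_mul (by linarith), mul_one_div_cancel hK0.ne',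
    Real.rpow_one]

/-- the exponent of the second part -/
theorem exp_bound {ξ η : ℝ} (h0 : 0 < ξ) (h1 : ξ ≤ 1) {K' k n m : ℕ} (hK : 1 ≤ ξ * K')
    (hq : 4 * (1 - ξ ^ 2) ^ k ≤ η * Real.log 2)
    (hm : (m : ℝ) ≤ (2 : ℝ) ^ ((1 + 1 / (K' : ℝ)) * k) * n) :
    Real.exp (4 * (1 - ξ) ^ k * m / 2 ^ k) ≤ (2 : ℝ) ^ (η * n) := by
  rw [Real.rpow_def_of_pos (by norm_num), Real.exp_le_exp]
  have h2 : (2 : ℝ) ^ ((1 + 1 / (K' : ℝ)) * k) = 2 ^ k * (2 : ℝ) ^ ((1 / (K' : ℝ)) * k) := by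
    rw [add_mul, one_mul, Real.rpow_add (by norm_num), Real.rpow_natCast]
  rw [h2] at hm
  have h3 := two_root h0 hK k
  have h4 : (m : ℝ) / 2 ^ k ≤ (1 + ξ) ^ k * n := by
    rw [div_le_iff₀ (by positivity)]
    refine hm.trans ?_
    have := mul_le_mul_of_nonneg_left h3 (by positivity : (0:ℝ) ≤ 2 ^ k * n)
    calc 2 ^ k * (2 : ℝ) ^ ((1 / (K' : ℝ)) * k) * n = 2 ^ k * n * (2 : ℝ) ^ ((1 / (K' : ℝ)) * k) := by
          ring
      _ ≤ 2 ^ k * n * (1 + ξ) ^ k := this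
      _ = (1 + ξ) ^ k * n * 2 ^ k := by ring
  have h5 : (0 : ℝ) ≤ 4 * (1 - ξ) ^ k := by
    have : (0:ℝ) ≤ 1 - ξ := by linarith
    positivity
  calc 4 * (1 - ξ) ^ k * m / 2 ^ k = 4 * (1 - ξ) ^ k * (m / 2 ^ k) := by ring
    _ ≤ 4 * (1 - ξ) ^ k * ((1 + ξ) ^ k * n) := mul_le_mul_of_nonneg_left h4 h5
    _ = 4 * (1 - ξ ^ 2) ^ k * n := by
        rw [show (1 - ξ ^ 2) = (1 - ξ) * (1 + ξ) by ring, mul_pow]; ring
    _ ≤ η * Real.log 2 * n := mul_le_mul_of_nonneg_right hq (Nat.cast_nonneg n)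
    _ = Real.log 2 * (η * n) := by ring

theorem pf_NS2 (hNS1 : T_NS1) (hBLB : Pool.Agent.H97.RK.T_BLB) : T_NS2 := by
  classical
  intro η hη
  obtain ⟨ξ0, hξ0, hball⟩ := hBLB η hη
  set ξ : ℝ := min ξ0 (1 / 2) with hξdef
  have hξ : 0 < ξ := lt_min hξ0 (by norm_num)
  have hξ2 : ξ ≤ 1 / 2 := min_le_right _ _
  have hξ1 : ξ ≤ 1 := by linarith
  have hlog : 0 < η * Real.log 2 := mul_pos hη (Real.log_pos (by norm_num))
  have hq1 : 1 - ξ ^ 2 < 1 := by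
    have := pow_pos hξ 2
    linarith
  have hq0 : 0 ≤ 1 - ξ ^ 2 := by nlinarith
  obtain ⟨K1, hK1⟩ : ∃ K1 : ℕ, ∀ k, K1 ≤ k → 4 * (1 - ξ ^ 2) ^ k ≤ η * Real.log 2 := by
    obtain ⟨K1, hK1⟩ := exists_pow_lt_of_lt_one (by positivity : (0:ℝ) < η * Real.log 2 / 4) hq1
    refine ⟨K1, fun k hk => ?_⟩
    have h1 : (1 - ξ ^ 2) ^ k ≤ (1 - ξ ^ 2) ^ K1 := pow_le_pow_of_le_one hq0 hq1.le hk
    linarith
  obtain ⟨K2, hK2⟩ := exists_nat_ge (1 / ξ)
  refine ⟨max (max K1 K2) 1, le_max_right _ _, ?_⟩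
  intro K' k n m hKK' hKk hkn hKn hm
  have hk1 : 1 ≤ k := le_trans (le_max_right _ _) hKk
  have hkK1 : K1 ≤ k := le_trans (le_trans (le_max_left _ _) (le_max_left _ _)) hKk
  have hK2K' : K2 ≤ K' := le_trans (le_trans (le_max_right _ _) (le_max_left _ _)) hKK'
  have hξK' : 1 ≤ ξ * K' := by
    have h1 : 1 / ξ ≤ K' := hK2.trans (by exact_mod_cast hK2K')
    rw [div_le_iff₀ hξ] at h1
    linarith
  have hexp := exp_bound hξ hξ1 hξK' (hK1 k hkK1) hm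
  set T : ℝ := (((2 : ℝ) ^ k - 1) * (n.descFactorial k : ℝ)) ^ m with hT
  set Q : ℝ := (1 - (1 / 2 : ℝ) ^ k) ^ m with hQ
  set E : ℝ := (2 : ℝ) ^ (η * n) with hE
  have hE0 : 0 < E := Real.rpow_pos_of_pos (by norm_num) _
  have hT0 : 0 ≤ T := by
    rw [hT]
    have h1 : (1 : ℝ) ≤ 2 ^ k := one_le_pow₀ (by norm_num)
    have h2 : (0:ℝ) ≤ 2 ^ k - 1 := by linarith
    positivity
  have hQ0 : 0 ≤ Q := by
    rw [hQ]
    have h1 : (1 / 2 : ℝ) ^ k ≤ 1 := pow_le_one₀ (by norm_num) (by norm_num)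
    have h2 : (0:ℝ) ≤ 1 - (1 / 2 : ℝ) ^ k := by linarith
    positivity
  set a : ℕ := ⌊ξ * n⌋₊ with ha
  have hterm : ∀ w ∈ range (n + 1), (n.choose w : ℝ) *
      (((2 : ℝ) ^ k - 2) * (n.descFactorial k : ℝ) + ((n - w).descFactorial k : ℝ)) ^ m ≤
      (if w ≤ a then (n.choose w : ℝ) * T else 0) + (n.choose w : ℝ) * (T * Q * E) := by
    intro w hw
    have hwn : w ≤ n := by rw [Finset.mem_range] at hw; omega
    obtain ⟨h1, h2⟩ := hNS1 n k m w ξ hk1 hkn hwn hξ hξ1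
    by_cases hwa : w ≤ a
    · rw [if_pos hwa]
      have h3 := mul_le_mul_of_nonneg_left h1 (Nat.cast_nonneg (n.choose w) : (0:ℝ) ≤ _)
      have h4 : 0 ≤ (n.choose w : ℝ) * (T * Q * E) := by positivity
      linarith
    · rw [if_neg hwa, zero_add]
      have h3 : ξ * n ≤ w := by
        have h4 := Nat.lt_floor_add_one (ξ * n)
        have h5 : ((a + 1 : ℕ) : ℝ) ≤ w := by exact_mod_cast (by omega : a + 1 ≤ w)
        rw [← ha] at h4
        push_cast at h5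
        linarith
      refine mul_le_mul_of_nonneg_left ((h2 h3).trans ?_) (Nat.cast_nonneg _)
      exact mul_le_mul_of_nonneg_left hexp (mul_nonneg hT0 hQ0)
  refine (Finset.sum_le_sum hterm).trans ?_
  rw [Finset.sum_add_distrib, ← Finset.sum_filter, ← Finset.sum_mul, ← Finset.sum_mul]
  have hb1 : (∑ w ∈ (range (n + 1)).filter (fun w => w ≤ a), (n.choose w : ℝ)) ≤ E := by
    have h1 : (∑ w ∈ (range (n + 1)).filter (fun w => w ≤ a), (n.choose w : ℝ)) ≤ (bl n a : ℝ) := by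
      unfold bl
      push_cast
      refine Finset.sum_le_sum_of_subset_of_nonneg ?_ fun _ _ _ => Nat.cast_nonneg _
      intro w hw
      rw [Finset.mem_filter] at hw
      rw [Finset.mem_range]
      omega
    refine h1.trans (hball n a ?_)
    refine (Nat.floor_le (by positivity)).trans ?_
    exact mul_le_mul_of_nonneg_right (min_le_left _ _) (Nat.cast_nonneg n)
  have hb2 : (∑ w ∈ range (n + 1), (n.choose w : ℝ)) = 2 ^ n := by
    have := Nat.sum_range_choose n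
    exact_mod_cast this
  have hg : (2 : ℝ) ^ n * guess n k m = 1 + 2 ^ n * Q := by
    unfold guess
    rw [mul_add, ← mul_pow]
    norm_num
    rfl
  rw [hb2, hg]
  have h6 := mul_le_mul_of_nonneg_right hb1 hT0
  calc _ ≤ E * T + 2 ^ n * (T * Q * E) := by linarith
    _ = E * (1 + 2 ^ n * Q) * T := by ring

end Pool.Agent.H35.PL
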