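import Pool.Agent.H47.PL.Targets2
import Pool.Agent.H47.PL.FNP

/-!
# WPL: almost all planted formulas are flat
-/

set_option autoImplicit false

namespace Pool.Agent.H35.PL

open Finset Pool.Agent.H97.RK Pool.Agent.H47.PL

open Classical in
/-- the size of a Hamming ball -/
theorem card_ball (n a : ℕ) (σ : Fin n → Bool) :
    (univ.filter fun y : Fin n → Bool => dst y σ ≤ a).card ≤ bl n a := by
  have h : ((univ : Finset (Finset (Fin n))).filter fun D => D.card ≤ a) ⊆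
      (range (a + 1)).biUnion fun i => powersetCard i (univ : Finset (Fin n)) := by
    intro D hD
    rw [mem_filter] at hD
    rw [mem_biUnion]
    exact ⟨D.card, mem_range.2 (by omega), mem_powersetCard.2 ⟨subset_univ _, rfl⟩⟩
  have h2 : ((univ : Finset (Finset (Fin n))).filter fun D => D.card ≤ a).card ≤ bl n a := by
    refine (card_le_card h).trans (card_biUnion_le.trans ?_)
    unfold bl
    refine le_of_eq (sum_congr rfl fun i _ => ?_)
    rw [card_powersetCard, card_univ, Fintype.card_fin]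
  refine le_trans ?_ h2
  refine card_le_card_of_injOn (fun y => univ.filter fun u => y u ≠ σ u) ?_ ?_
  · intro y hy
    rw [mem_coe, mem_filter] at hy
    rw [mem_coe, mem_filter]
    refine ⟨mem_univ _, le_trans (le_of_eq ?_) hy.2⟩
    unfold dst
    congr 1
  · intro y _ y' _ hyy
    funext v
    have h2 := congrArg (fun s => v ∈ s) hyy
    simp only [mem_filter, mem_univ, true_and, eq_iff_iff] at h2
    revert h2
    cases y v <;> cases y' v <;> cases σ v <;> simp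

/-- double counting -/
theorem markov {A B : Type} [Fintype A] (Y : Finset B) (P : A → Prop) [DecidablePred P]
    (V : A → B → Prop) [∀ F, DecidablePred (V F)] (N1 : ℝ) :
    ∃ S : Finset A, (∀ F, P F → N1 < ((Y.filter fun y => V F y).card : ℝ) → F ∈ S) ∧
      (S.card : ℝ) * N1 ≤ ∑ y ∈ Y, ((univ.filter fun F => P F ∧ V F y).card : ℝ) := by
  classical
  refine ⟨univ.filter fun F => P F ∧ N1 < ((Y.filter fun y => V F y).card : ℝ),
    fun F h1 h2 => mem_filter.2 ⟨mem_univ _, h1, h2⟩, ?_⟩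
  set S := univ.filter fun F => P F ∧ N1 < ((Y.filter fun y => V F y).card : ℝ) with hS
  have h1 : (S.card : ℝ) * N1 ≤ ∑ F ∈ S, ((Y.filter fun y => V F y).card : ℝ) := by
    rw [← nsmul_eq_mul, ← sum_const]
    exact sum_le_sum fun F hF => ((mem_filter.1 hF).2.2).le
  have h2 : ∑ F ∈ S, ((Y.filter fun y => V F y).card : ℝ) ≤
      ∑ F ∈ univ.filter P, ((Y.filter fun y => V F y).card : ℝ) := by
    refine sum_le_sum_of_subset_of_nonneg ?_ fun _ _ _ => Nat.cast_nonneg _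
    intro F hF
    rw [mem_filter] at hF ⊢
    exact ⟨mem_univ _, hF.2.1⟩
  have h3 : ∑ F ∈ univ.filter P, ((Y.filter fun y => V F y).card : ℝ) =
      ∑ y ∈ Y, (((univ.filter P).filter fun F => V F y).card : ℝ) := by
    have h4 := sum_card_bipartiteAbove_eq_sum_card_bipartiteBelow (s := univ.filter P) (t := Y) V
    unfold bipartiteAbove bipartiteBelow at h4
    have h5 : ((∑ F ∈ univ.filter P, (Y.filter fun y => V F y).card : ℕ) : ℝ) =
        ((∑ y ∈ Y, ((univ.filter P).filter fun F => V F y).card : ℕ) : ℝ) :=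
      congrArg Nat.cast (h4.trans (sum_congr rfl fun y _ => by congr))
    rw [Nat.cast_sum, Nat.cast_sum] at h5
    exact h5
  refine h1.trans (h2.trans (h3.trans_le (sum_le_sum fun y _ => ?_)))
  rw [filter_filter]

/-- few clauses avoid a distant assignment -/
theorem desc_bound {n k d : ℕ} {ξ : ℝ} (hn : 1 ≤ n) (hk : k ≤ n) (h1 : ξ ≤ 1)
    (hd : ξ * n ≤ d) : (((n - d).descFactorial k : ℕ) : ℝ) ≤ (1 - ξ) ^ k * (n.descFactorial k : ℝ) := by
  have hn0 : (0 : ℝ) < n := by exact_mod_cast hn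
  have h2 := descFactorial_le (Nat.sub_le n d) k hk
  have h3 : (((n - d).descFactorial k : ℕ) : ℝ) * (n : ℝ) ^ k ≤
      ((n - d : ℕ) : ℝ) ^ k * (n.descFactorial k : ℝ) := by exact_mod_cast h2
  have h4 : ((n - d : ℕ) : ℝ) ≤ (1 - ξ) * n := by
    rcases le_total d n with h | h
    · rw [Nat.cast_sub h]
      linarith
    · rw [Nat.sub_eq_zero_of_le h, Nat.cast_zero]
      exact mul_nonneg (by linarith) hn0.le
  have h5 : ((n - d : ℕ) : ℝ) ^ k ≤ (1 - ξ) ^ k * (n : ℝ) ^ k := by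
    rw [← mul_pow]
    exact pow_le_pow_left₀ (Nat.cast_nonneg _) h4 k
  have h6 : (((n - d).descFactorial k : ℕ) : ℝ) * (n : ℝ) ^ k ≤
      ((1 - ξ) ^ k * (n.descFactorial k : ℝ)) * (n : ℝ) ^ k := by
    refine h3.trans ((mul_le_mul_of_nonneg_right h5 (Nat.cast_nonneg _)).trans (le_of_eq ?_))
    ring
  exact le_of_mul_le_mul_right h6 (by positivity)

open Classical in
/-- the inclusion of the events -/
theorem incl {n k m w : ℕ} {α ξ N1 N : ℝ} {Γ' : ℕ} (σ : Fin n → Bool) (F : Fml n k m)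
    (hw : 1 ≤ w) (hN : N1 + bl n ⌊ξ * n⌋₊ ≤ N)
    (hQ : ¬ ∃ B, Loc F α Γ' B ∧ (B.card : ℝ) ≤ N) :
    (∃ y ∈ univ.filter (fun y : Fin n → Bool => ξ * n ≤ dst y σ), w ≤ (vio F y).card ∧
      ∃ D : Finset (Fin n), (vio F y).card < Γ' *
        ((vio F y).filter fun c => ((D.card : ℝ) / n + α) * k < inn F c D).card) ∨
    N1 < (((univ.filter (fun y : Fin n → Bool => ξ * n ≤ dst y σ)).filter
      fun y => (vio F y).card < w).card : ℝ) := by
  by_contra hcon
  push Not at hcon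
  obtain ⟨hA, hB⟩ := hcon
  apply hQ
  refine ⟨(univ.filter fun y => (vio F y).card < w) ∪
    (univ.filter fun y : Fin n → Bool => ¬ ξ * n ≤ dst y σ), ⟨?_, ?_⟩, ?_⟩
  · intro y hy
    rw [mem_union, mem_filter, mem_filter] at hy
    push Not at hy
    have h1 := hy.1 (mem_univ _)
    exact card_pos.1 (by omega)
  · intro y hy D
    rw [mem_union, mem_filter, mem_filter] at hy
    push Not at hy
    have h1 := hy.1 (mem_univ _)
    have h2 := hy.2 (mem_univ _)
    exact hA y (mem_filter.2 ⟨mem_univ _, h2⟩) h1 D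
  · refine le_trans ?_ hN
    have hsub : (univ.filter fun y => (vio F y).card < w) ∪
        (univ.filter fun y : Fin n → Bool => ¬ ξ * n ≤ dst y σ) ⊆
        ((univ.filter (fun y : Fin n → Bool => ξ * n ≤ dst y σ)).filter
          fun y => (vio F y).card < w) ∪
        (univ.filter fun y : Fin n → Bool => dst y σ ≤ ⌊ξ * n⌋₊) := by
      intro y hy
      rw [mem_union, mem_filter, mem_filter] at hy
      rw [mem_union, mem_filter, mem_filter, mem_filter]
      by_cases h1 : ξ * n ≤ dst y σ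
      · left
        rcases hy with h2 | h2
        · exact ⟨⟨mem_univ _, h1⟩, h2.2⟩
        · exact absurd h1 h2.2
      · right
        refine ⟨mem_univ _, Nat.le_floor ?_⟩
        exact (not_le.1 h1).le
    have h1 := (card_le_card hsub).trans (card_union_le _ _)
    have h2 := card_ball n ⌊ξ * n⌋₊ σ
    have h3 : ((((univ.filter fun y => (vio F y).card < w) ∪
        (univ.filter fun y : Fin n → Bool => ¬ ξ * n ≤ dst y σ)).card : ℕ) : ℝ) ≤
        ((((univ.filter (fun y : Fin n → Bool => ξ * n ≤ dst y σ)).filter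
          fun y => (vio F y).card < w).card + bl n ⌊ξ * n⌋₊ : ℕ) : ℝ) := by
      exact_mod_cast h1.trans (Nat.add_le_add_left h2 _)
    rw [Nat.cast_add] at h3
    linarith

theorem mul_two_exp {δ : ℝ} (n : ℕ) (h : 4 * (n : ℝ) ≤ (2 : ℝ) ^ (δ / 8 * n)) (hn : 1 ≤ n) :
    8 * (n : ℝ) ≤ (2 : ℝ) ^ (δ / 4 * n) := by
  have h1 : (2 : ℝ) ^ (δ / 4 * n) = (2 : ℝ) ^ (δ / 8 * n) * (2 : ℝ) ^ (δ / 8 * n) := by
    rw [← Real.rpow_add (by norm_num)]
    congr 1
    ring
  rw [h1]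
  have hn1 : (1 : ℝ) ≤ n := by exact_mod_cast hn
  nlinarith

theorem vio_card {n k m : ℕ} (F : Fml n k m) (y : Fin n → Bool)
    {h : DecidablePred fun c => Vi y (F c)} :
    (vio F y).card = (@Finset.filter _ (fun c => Vi y (F c)) h univ).card := by
  unfold vio
  exact cfi fun c => Iff.rfl

open Classical in
/-- formulas for which a distant assignment violates few clauses -/
theorem cntB (hWVC : T_WVC) (hWM1 : T_WM1) (hOSC : T_OSC) {n k m w : ℕ} {θ ξ : ℝ}
    (hn : 1 ≤ n) (hk : k ≤ n) (hθ : 0 < θ) (hθ1 : θ ≤ 1) (hξ1 : ξ ≤ 1) (hξθ : (1 - ξ) ^ k ≤ θ)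
    (σ y : Fin n → Bool) (hy : ξ * n ≤ dst y σ) :
    ((univ.filter fun F : Fml n k m => (∀ c, F c ∈ Os n k σ) ∧ (vio F y).card < w).card : ℝ) *
      θ ^ w ≤ ((Os n k σ).card : ℝ) ^ m * (1 - (1 - θ) * (1 - θ) / 2 ^ k) ^ m := by
  have h1 := hWM1 (Fin k → Fin n × Bool) m w (Os n k σ) (Vi y) θ hθ hθ1
  refine le_trans (le_of_eq (congrArg (fun x : ℕ => (x : ℝ) * θ ^ w) (cfi fun F => ?_))) (h1.trans ?_)
  · rw [vio_card]
  rw [← mul_pow]
  have h3 := (hWVC n k 1 ∅ y σ hn hk one_pos le_rfl).2.1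
  have h4 := desc_bound hn hk hξ1 hy
  have h5 := (hOSC n k σ σ).1
  have hN0 : (0 : ℝ) ≤ (n.descFactorial k : ℝ) := Nat.cast_nonneg _
  have h6 : (((Os n k σ).filter (Vi y)).card : ℝ) + (((n - dst y σ).descFactorial k : ℕ) : ℝ) =
      (n.descFactorial k : ℝ) := by exact_mod_cast h3
  have h7 : (((Os n k σ).filter (Vi y)).card : ℝ) ≤ ((Os n k σ).card : ℝ) := by
    exact_mod_cast card_filter_le _ _
  have h8 : ((Os n k σ).card : ℝ) ≤ 2 ^ k * (n.descFactorial k : ℝ) := by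
    have : (Os n k σ).card ≤ 2 ^ k * n.descFactorial k := by
      rw [h5]
      exact Nat.mul_le_mul_right _ (Nat.sub_le _ _)
    exact_mod_cast this
  have h9 : (1 - θ) * (n.descFactorial k : ℝ) ≤ (((Os n k σ).filter (Vi y)).card : ℝ) := by
    have h10 := mul_le_mul_of_nonneg_right hξθ hN0
    linarith
  have h11 : (0 : ℝ) ≤ 1 - θ := by linarith
  have h12 : (0 : ℝ) ≤ (((Os n k σ).filter (Vi y)).card : ℝ) := Nat.cast_nonneg _
  apply pow_le_pow_left₀
  · have h13 : (1 - θ) * (((Os n k σ).filter (Vi y)).card : ℝ) ≤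
        1 * (((Os n k σ).filter (Vi y)).card : ℝ) :=
      mul_le_mul_of_nonneg_right (by linarith) h12
    linarith
  · have h13 := mul_le_mul_of_nonneg_left h9 h11
    have h14 : ((Os n k σ).card : ℝ) / 2 ^ k ≤ (n.descFactorial k : ℝ) := by
      rw [div_le_iff₀ (by positivity)]
      linarith
    have h15 := mul_le_mul_of_nonneg_left h14 (mul_nonneg h11 h11)
    have h16 : ((Os n k σ).card : ℝ) * (1 - (1 - θ) * (1 - θ) / 2 ^ k) =
        ((Os n k σ).card : ℝ) - (1 - θ) * (1 - θ) * (((Os n k σ).card : ℝ) / 2 ^ k) := by ring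
    rw [h16]
    linarith

/-- numbers -/
theorem num1 {u G b : ℝ} (hu : 2 ≤ u) (hG : 1 ≤ G) (hb : b ≤ u) :
    u * u * G + b ≤ u * u * (u * u) * G := by
  have h1 : u ≤ u * u * G := by nlinarith
  have h2 : 2 * (u * u * G) ≤ (u * u) * (u * u * G) := by
    apply mul_le_mul_of_nonneg_right _ (by positivity)
    nlinarith
  have h3 : u * u * (u * u) * G = (u * u) * (u * u * G) := by ring
  rw [h3]
  linarith

theorem pf_WPL (hWVC : T_WVC) (hWM1 : T_WM1) (hWGN : T_WGN) (hWEX : T_WEX) (hOSC : T_OSC)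
    (hBLB : Pool.Agent.H97.RK.T_BLB) : T_WPL := by
  classical
  intro α δ Γ' hα hα1 hδ hΓ
  obtain ⟨θ, η, hθ, hθ1, hη, K1, hK1, hwgn⟩ := hWGN (δ / 4) (by positivity)
  obtain ⟨ξ0, hξ0, hball⟩ := hBLB (δ / 4) (by positivity)
  obtain ⟨K2, hK2, hwex⟩ := hWEX α η Γ' hα hα1 hη hΓ
  obtain ⟨K3, hK3⟩ := exp_num (δ / 8) (by positivity)
  obtain ⟨ξ, hξdef⟩ : ∃ ξ : ℝ, ξ = min ξ0 (1 / 2) := ⟨_, rfl⟩
  have hξ : 0 < ξ := by rw [hξdef]; exact lt_min hξ0 (by norm_num)
  have hξ2 : ξ ≤ 1 / 2 := by rw [hξdef]; exact min_le_right _ _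
  have hξ0' : ξ ≤ ξ0 := by rw [hξdef]; exact min_le_left _ _
  obtain ⟨K4, hK4⟩ := exists_pow_lt_of_lt_one (lt_min hθ (by norm_num : (0 : ℝ) < 1 / 2))
    (by linarith : 1 - ξ < 1)
  refine ⟨K1 + K2 + K3 + K4, by omega, ?_⟩
  intro K' k n m hKK' hK'k hK'kn hm
  have hk1 : 1 ≤ k := by omega
  have hkn : k ≤ n := (Nat.le_mul_of_pos_left k (by omega)).trans hK'kn
  have hn1 : 1 ≤ n := by omega
  have hn0 : (0 : ℝ) < n := by exact_mod_cast hn1
  have hpow : (1 - ξ) ^ k ≤ min θ (1 / 2) :=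
    (pow_le_pow_of_le_one (by linarith) (by linarith) (by omega : K4 ≤ k)).trans hK4.le
  have hpθ : (1 - ξ) ^ k ≤ θ := hpow.trans (min_le_left _ _)
  have hp2 : (1 - ξ) ^ k ≤ 1 / 2 := hpow.trans (min_le_right _ _)
  obtain ⟨w, hwdef⟩ : ∃ w : ℕ, w = ⌈η * n⌉₊ := ⟨_, rfl⟩
  have hw1 : 1 ≤ w := by
    rw [hwdef]
    exact Nat.one_le_iff_ne_zero.2 (Nat.ceil_pos.2 (by positivity)).ne'
  have hw2 : η * n ≤ w := by rw [hwdef]; exact Nat.le_ceil _
  have hw3 : (w : ℝ) ≤ η * n + 1 := by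
    rw [hwdef]
    exact (Nat.ceil_lt_add_one (by positivity)).le
  obtain ⟨u, hu⟩ : ∃ u : ℝ, u = (2 : ℝ) ^ (δ / 4 * n) := ⟨_, rfl⟩
  obtain ⟨G, hG⟩ : ∃ G : ℝ, G = 2 ^ n * guess n k m := ⟨_, rfl⟩
  have hu8 : 8 * (n : ℝ) ≤ u := by rw [hu]; exact mul_two_exp n (hK3 n (by omega)) hn1
  have hn1r : (1 : ℝ) ≤ n := by exact_mod_cast hn1
  have hu2 : 2 ≤ u := by linarith
  have hG1 : 1 ≤ G := by
    rw [hG]
    unfold guess
    have h1 : (1 / 2 : ℝ) ^ k ≤ 1 := pow_le_one₀ (by norm_num) (by norm_num)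
    have h2 : 0 ≤ (1 - (1 / 2 : ℝ) ^ k) ^ m := pow_nonneg (by linarith) m
    have h3 : (2 : ℝ) ^ n * (1 / 2 : ℝ) ^ n = 1 := by
      rw [← mul_pow]
      norm_num
    have h4 : 0 ≤ (2 : ℝ) ^ n * (1 - (1 / 2 : ℝ) ^ k) ^ m := by positivity
    rw [mul_add, h3]
    linarith
  have hu4 : (2 : ℝ) ^ (δ * n) = u * u * (u * u) := by
    rw [hu, ← Real.rpow_add (by norm_num), ← Real.rpow_add (by norm_num)]
    congr 1
    ring
  have hbl : (bl n ⌊ξ * n⌋₊ : ℝ) ≤ u := by
    rw [hu]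
    apply hball
    refine (Nat.floor_le (by positivity)).trans ?_
    exact mul_le_mul_of_nonneg_right hξ0' hn0.le
  have hNN := num1 hu2 hG1 hbl
  have hwg := hwgn K' k n m w (1 - θ) (by omega) (by omega) (by omega) hm hw3 le_rfl (by linarith)
  rw [← hu, ← hG] at hwg
  rw [← hG, hu4]
  have hσ : ∀ σ : Fin n → Bool, 4 * (n : ℝ) * ((univ.filter fun F : Fml n k m =>
      (∀ c, F c ∈ Os n k σ) ∧ ¬ ∃ B, Loc F α Γ' B ∧
        (B.card : ℝ) ≤ u * u * (u * u) * G).card : ℝ) ≤ ((Os n k σ).card : ℝ) ^ m := by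
    intro σ
    set Y := univ.filter (fun y : Fin n → Bool => ξ * n ≤ dst y σ) with hY
    have hsub : Os n k σ ⊆ Om n k := fun g hg => (mem_Os.1 hg).1
    have hA := hwex n k m w (Os n k σ) Y (by omega) hkn hw2 hsub (by
      intro y hy
      have hy' : ξ * n ≤ dst y σ := (mem_filter.1 hy).2
      have h3 := (hWVC n k 1 ∅ y σ hn1 hkn one_pos le_rfl).2.1
      have h4 := desc_bound hn1 hkn (by linarith) hy'
      have h5 := mul_le_mul_of_nonneg_right hp2 (Nat.cast_nonneg (n.descFactorial k) : (0 : ℝ) ≤ _)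
      have h6 : (((Os n k σ).filter (Vi y)).card : ℝ) + (((n - dst y σ).descFactorial k : ℕ) : ℝ) =
          (n.descFactorial k : ℝ) := by exact_mod_cast h3
      have h7 : (n.descFactorial k : ℝ) ≤ 2 * (((Os n k σ).filter (Vi y)).card : ℝ) := by linarith
      exact_mod_cast h7)
    obtain ⟨S, hS, hB⟩ := markov Y (fun F : Fml n k m => ∀ c, F c ∈ Os n k σ)
      (fun F y => (vio F y).card < w) (u * u * G)
    set b : ℝ := (S.card : ℝ) with hb
    have hb0 : 0 ≤ b := Nat.cast_nonneg _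
    have hMm : 0 ≤ ((Os n k σ).card : ℝ) ^ m := by positivity
    have hB2 : b * (u * u * G) * θ ^ w ≤ ((Os n k σ).card : ℝ) ^ m * (u * G) * θ ^ w := by
      have h1 := mul_le_mul_of_nonneg_right hB (pow_nonneg hθ.le w)
      refine h1.trans ?_
      rw [sum_mul]
      have h2 : ∑ y ∈ Y, ((univ.filter fun F : Fml n k m => (∀ c, F c ∈ Os n k σ) ∧
          (vio F y).card < w).card : ℝ) * θ ^ w ≤
          ∑ y ∈ Y, ((Os n k σ).card : ℝ) ^ m * (1 - (1 - θ) * (1 - θ) / 2 ^ k) ^ m :=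
        sum_le_sum fun y hy => le_trans (le_of_eq (congrArg (fun x : ℕ => (x : ℝ) * θ ^ w)
          (cfi fun F => Iff.rfl))) (cntB hWVC hWM1 hOSC hn1 hkn hθ hθ1.le (by linarith) hpθ σ y
          (mem_filter.1 hy).2)
      refine h2.trans ?_
      rw [sum_const, nsmul_eq_mul]
      have h3 : (Y.card : ℝ) ≤ 2 ^ n := by
        have : Y.card ≤ 2 ^ n := by
          refine (card_le_univ _).trans (le_of_eq ?_)
          rw [Fintype.card_fun, Fintype.card_fin, Fintype.card_bool]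
        exact_mod_cast this
      have h4 : 0 ≤ 1 - (1 - θ) * (1 - θ) / 2 ^ k := by
        have h5 : (1 - θ) * (1 - θ) ≤ 1 := by nlinarith
        have h6 : (1 - θ) * (1 - θ) / 2 ^ k ≤ 1 := by
          rw [div_le_one (by positivity)]
          exact h5.trans (one_le_pow₀ (by norm_num))
        linarith
      calc (Y.card : ℝ) * (((Os n k σ).card : ℝ) ^ m * (1 - (1 - θ) * (1 - θ) / 2 ^ k) ^ m) ≤
            2 ^ n * (((Os n k σ).card : ℝ) ^ m * (1 - (1 - θ) * (1 - θ) / 2 ^ k) ^ m) :=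
            mul_le_mul_of_nonneg_right h3 (by positivity)
        _ = ((Os n k σ).card : ℝ) ^ m * (2 ^ n * (1 - (1 - θ) * (1 - θ) / 2 ^ k) ^ m) := by ring
        _ ≤ ((Os n k σ).card : ℝ) ^ m * (θ ^ w * (u * G)) := mul_le_mul_of_nonneg_left hwg hMm
        _ = ((Os n k σ).card : ℝ) ^ m * (u * G) * θ ^ w := by ring
    have hB3 : b * (u * u * G) ≤ ((Os n k σ).card : ℝ) ^ m * (u * G) :=
      le_of_mul_le_mul_right hB2 (pow_pos hθ w)
    have huG : 0 < u * G := by positivity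
    have hB4 : b * u ≤ ((Os n k σ).card : ℝ) ^ m := by
      apply le_of_mul_le_mul_right _ huG
      calc b * u * (u * G) = b * (u * u * G) := by ring
        _ ≤ _ := hB3
    have hB5 : 8 * (n : ℝ) * b ≤ ((Os n k σ).card : ℝ) ^ m := by
      have := mul_le_mul_of_nonneg_right hu8 hb0
      linarith
    set a : ℝ := ((univ.filter fun F : Fml n k m => (∀ c, F c ∈ Os n k σ) ∧ ∃ y ∈ Y,
      w ≤ (vio F y).card ∧ ∃ D : Finset (Fin n), (vio F y).card < Γ' *
        ((vio F y).filter fun c => ((D.card : ℝ) / n + α) * k < inn F c D).card).card : ℝ) with ha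
    have hcov : ((univ.filter fun F : Fml n k m =>
      (∀ c, F c ∈ Os n k σ) ∧ ¬ ∃ B, Loc F α Γ' B ∧
        (B.card : ℝ) ≤ u * u * (u * u) * G).card : ℝ) ≤ a + b := by
      rw [ha, hb, ← Nat.cast_add]
      refine Nat.cast_le.2 (le_trans (card_le_card ?_) (card_union_le _ _))
      intro F hF
      rw [mem_filter] at hF
      rw [mem_union, mem_filter]
      rcases incl σ F hw1 hNN hF.2.2 with h | h
      · exact Or.inl ⟨mem_univ _, hF.2.1, h⟩
      · exact Or.inr (hS F hF.2.1 h)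
    have h1 := mul_le_mul_of_nonneg_left hcov (by positivity : (0 : ℝ) ≤ 4 * n)
    linarith
  have hall := card_all (n := n) (k := k) (m := m) ((2 ^ k - 1) * n.descFactorial k)
    (fun σ => (hOSC n k σ σ).1)
  have hpairs := card_pairs (n := n) (k := k) (m := m) (fun F => ¬ ∃ B, Loc F α Γ' B ∧
    (B.card : ℝ) ≤ u * u * (u * u) * G)
  rw [hall]
  have e : ((univ.filter fun p : Fml n k m × (Fin n → Bool) => Dist p.1 ∧ Sat p.1 p.2 ∧
      ¬ ∃ B, Loc p.1 α Γ' B ∧ (B.card : ℝ) ≤ u * u * (u * u) * G).card : ℝ) =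
      ∑ σ : Fin n → Bool, ((univ.filter fun F : Fml n k m =>
        (∀ c, F c ∈ Os n k σ) ∧ ¬ ∃ B, Loc F α Γ' B ∧
        (B.card : ℝ) ≤ u * u * (u * u) * G).card : ℝ) := by
    refine (congrArg Nat.cast (cfi fun p => Iff.rfl)).trans
      ((congrArg (Nat.cast (R := ℝ)) hpairs).trans ?_)
    rw [Nat.cast_sum]
    exact sum_congr rfl fun σ _ => congrArg Nat.cast (cfi fun F => Iff.rfl)
  rw [e, mul_sum]
  refine (sum_le_sum fun σ _ => hσ σ).trans (le_of_eq ?_)
  rw [sum_congr rfl fun σ _ => by rw [(hOSC n k σ σ).1], sum_const, card_univ, Fintype.card_fun,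
    Fintype.card_fin, Fintype.card_bool, nsmul_eq_mul]
  push_cast
  rfl

end Pool.Agent.H35.PL
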